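import Pool.Agent.H.MP_640201_an.Final

/-!
Negative answer to Q2: CR maps of class `C^n` (even of class `C^k` for any prescribed finite `k`)
between quadratic manifolds satisfying the cone condition need not be rational.
The definitions (`HermForm`, `Cone`, `param`, `IsCRMap`, `IsClass`, `IsRational`, `std`) are in
`Pool/Agent/H/MP_640201_an/QDefs.lean`.
-/

namespace Pool.Agent.Results.MP_640201_an.NonRationalCk

open MP640201

theorem result :
    (∀ k : ℕ, ∃ (K : ℕ) (f : Cn 1 1 → Cn 1 K), 1 ≤ K ∧ (std 1).Cone ∧ (std K).Cone ∧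
      Set.MapsTo f (std 1).M (std K).M ∧ IsClass (std 1) k f ∧ IsCRMap (std 1) (std K) f ∧
      ¬ IsRational (std 1) f) ∧
    ¬ (∀ (l d l' d' : ℕ) (A : HermForm l d) (B : HermForm l' d') (f : Cn l d → Cn l' d'),
      1 ≤ l → 1 ≤ d → 1 ≤ l' → 1 ≤ d' → A.Cone → B.Cone → Set.MapsTo f A.M B.M →
      IsClass A (l + d) f → IsCRMap A B f → IsRational A f) :=
  ⟨main, not_Q2⟩

end Pool.Agent.Results.MP_640201_an.NonRationalCk
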